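import Mathlib
import Pool.Agent.R890.FF.Blk
import Pool.Agent.W5h7.Dom.Main

set_option autoImplicit false

/-!
# Cographic 2-blocks of graphs with small domination number (MP_aa6b05_co)

Let `S` represent over GF(2) the cographic matroid `M*(G)` of a graph `G` in which three vertices
are such that every vertex is equal or adjacent to one of them, after the circuits with two, three
and four edges have been contracted repeatedly; for example, a graph with domination number at most
three.  If `S` is a 2-block then `S` has a RESTRICTION `M*(P₁₀)` (no contraction is needed), and if it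
is tangential it is `M*(P₁₀)`.  The rank, the order, the degrees and the number of vertices of odd
degree are unbounded.

Proof.  A 2-block has no zero vector, so `G` has no isthmus, and it has no flow over the group of
order four which is nowhere zero.  If it had no Petersen quotient, then a graph `H` obtained from it
by identification of vertices, with these properties and with as few edges (apart from loops) as
possible, would have no circuit with at most four edges (Kempe chains), no vertex with one or two
neighbours, and at least 18 vertices of odd degree (starting library `TH362/TF`, `R890/FF`).  Tied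
vertices have the same image in `H`, so `H` is dominated by three vertices `d 0, d 1, d 2`; a vertex
different from these has at most one neighbour in each closed neighbourhood of a `d i`; so it has
exactly three neighbours.  At most one vertex is adjacent to all `d i`; all the others are on
disjoint circuits whose lengths are divisible by three and whose vertices are joined to `d 0`, `d 1`,
`d 2` in turn.  At least five of them are joined to each `d i`, and then a flow on `H` which is nowhere
zero can be given explicitly (`Pool/Agent/W5h7/Dom/Pure.lean`).  The translation to blocks is the one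
of helper890 (`R890/FF/Blk.lean`).
-/

namespace Pool.Agent.Results.MP_aa6b05_co.DominationThree

/-- The incidence vector of the vertex `v` over GF(2): the coordinate of an edge is the number of
its ends which are `v`, modulo 2 (so loops give 0). -/
def star {V E : Type} [DecidableEq V] (src dst : E → V) (v : V) : E → ZMod 2 :=
  fun e => (if src e = v then 1 else 0) + (if dst e = v then 1 else 0)

/-- The vectors `vec e` represent the cographic matroid of the graph: the linear relations between
them are exactly the elements of the cut space, which is spanned by the incidence vectors. -/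
def RepresentsCographic {V E : Type} [DecidableEq V] [Fintype E] (src dst : E → V) {n : ℕ}
    (vec : E → Fin n → ZMod 2) : Prop :=
  ∀ x : E → ZMod 2, ∑ e, x e • vec e = 0 ↔
    x ∈ Submodule.span (ZMod 2) (Set.range (star src dst))

/-- The simple matroid represented by the set `S` of vectors over GF(2) is a 2-block: `S` has no
zero vector and no linear map to the plane over GF(2) is nonzero on all of `S`. -/
def IsTwoBlock {n : ℕ} (S : Set (Fin n → ZMod 2)) : Prop :=
  (0 : Fin n → ZMod 2) ∉ S ∧
    ¬ ∃ L : (Fin n → ZMod 2) →ₗ[ZMod 2] (Fin 2 → ZMod 2), ∀ s ∈ S, L s ≠ 0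

/-- `S` represents a tangential 2-block: it is a 2-block, and no proper minor without loops
(contract `C`, keep `T`) is a 2-block. This is the hypothesis of the frozen statement S10691. -/
def IsTangential {n : ℕ} (S : Set (Fin n → ZMod 2)) : Prop :=
  IsTwoBlock S ∧
    ∀ C T : Set (Fin n → ZMod 2), C ⊆ S → T ⊆ S → T ≠ S →
      (∀ t ∈ T, t ∉ Submodule.span (ZMod 2) C) →
      ∃ L : (Fin n → ZMod 2) →ₗ[ZMod 2] (Fin 2 → ZMod 2),
        (∀ c ∈ C, L c = 0) ∧ ∀ t ∈ T, L t ≠ 0

/-- The cut space of the Petersen graph: vertices `0, ..., 9`, edges `0, ..., 14`. -/
def petersenCuts : Submodule (ZMod 2) (Fin 15 → ZMod 2) :=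
  Submodule.span (ZMod 2) (Set.range (fun v : Fin 10 => fun k : Fin 15 =>
    if (![0,1,2,3,4,5,6,7,8,9,0,1,2,3,4] : Fin 15 → Fin 10) k = v ∨
       (![1,2,3,4,0,7,8,9,5,6,5,6,7,8,9] : Fin 15 → Fin 10) k = v
    then (1 : ZMod 2) else 0))

/-- The edge `e` joins the vertices `x` and `y`. -/
def Joins {V E : Type} (s t : E → V) (e : E) (x y : V) : Prop :=
  (s e = x ∧ t e = y) ∨ (s e = y ∧ t e = x)

/-- `Tied s t` is the smallest equivalence relation on the vertices such that: if two, three or four
different edges form a closed walk `x – y`, `y' – z`, ..., `u' – x'` where the consecutive ends `y, y'`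
and `z, z'` and so on, and `x', x`, are tied to each other (for instance equal), then the ends `x` and
`y` of the first edge are tied.  So the ends of an edge of a circuit with at most four edges are
tied, and this is repeated after the identification of the tied vertices. -/
inductive Tied {V E : Type} (s t : E → V) : V → V → Prop
  | refl (x : V) : Tied s t x x
  | symm {x y : V} (h : Tied s t x y) : Tied s t y x
  | trans {x y z : V} (h : Tied s t x y) (h' : Tied s t y z) : Tied s t x z
  | two {x y x' y' : V} {e f : E} (hef : e ≠ f) (he : Joins s t e x y) (hy : Tied s t y y')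
      (hf : Joins s t f y' x') (hx : Tied s t x' x) : Tied s t x y
  | three {x y z x' y' z' : V} {e f g : E} (hef : e ≠ f) (heg : e ≠ g) (hfg : f ≠ g)
      (he : Joins s t e x y) (hy : Tied s t y y') (hf : Joins s t f y' z) (hz : Tied s t z z')
      (hg : Joins s t g z' x') (hx : Tied s t x' x) : Tied s t x y
  | four {x y z u x' y' z' u' : V} {e f g h : E} (hef : e ≠ f) (heg : e ≠ g) (heh : e ≠ h)
      (hfg : f ≠ g) (hfh : f ≠ h) (hgh : g ≠ h) (he : Joins s t e x y) (hy : Tied s t y y')
      (hf : Joins s t f y' z) (hz : Tied s t z z') (hg : Joins s t g z' u) (hu : Tied s t u u')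
      (hh : Joins s t h u' x') (hx : Tied s t x' x) : Tied s t x y

/-- Let `S` be a set of vectors over GF(2) which represents the cographic matroid of a graph
(parallel elements are represented by the same vector).  Suppose that there are three vertices
`c 0, c 1, c 2` (not necessarily different) such that every vertex `v` which is an end of an edge is
tied to some `c i`, or tied to an end `x` of an edge whose other end `y` is tied to some `c i` (for
example, `v` is equal or adjacent to some `c i`).  If `S` is a 2-block then `S` contains 15 different
vectors which represent the cographic matroid of the Petersen graph; if `S` is a tangential 2-block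
then `S` is the cographic matroid of the Petersen graph, in the form of the frozen statement
S10691. -/
theorem result :
    ∀ (n : ℕ) (S : Set (Fin n → ZMod 2)) (V E : Type) [Fintype V] [DecidableEq V] [Fintype E]
      [DecidableEq E] (src dst : E → V) (vec : E → Fin n → ZMod 2),
      RepresentsCographic src dst vec → Set.range vec = S →
      (∃ c : Fin 3 → V, ∀ e₀ v w, Joins src dst e₀ v w → ∃ i, Tied src dst v (c i) ∨
        ∃ e x y, Joins src dst e x y ∧ Tied src dst v x ∧ Tied src dst y (c i)) →
      (IsTwoBlock S → ∃ t : Fin 15 → Fin n → ZMod 2,
        Set.range t ⊆ S ∧ Function.Injective t ∧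
        ∀ x : Fin 15 → ZMod 2, ∑ k, x k • t k = 0 ↔ x ∈ petersenCuts) ∧
      (IsTangential S → ∃ ψ : (Fin 15 → ZMod 2) →ₗ[ZMod 2] (Fin n → ZMod 2),
        LinearMap.ker ψ = petersenCuts ∧
        ⇑ψ '' Set.range (fun k : Fin 15 => (Pi.single k (1 : ZMod 2) : Fin 15 → ZMod 2)) = S) := by
  classical
  intro n S V E _ _ _ _ src dst vec hv hr ⟨c, hc⟩
  have hT : ∀ x y, Tied src dst x y → W5h7.Dom.Tied src dst x y := by
    intro x y h
    induction h with
    | refl x => exact .refl x
    | symm _ ih => exact .symm ih
    | trans _ _ ih ih' => exact .trans ih ih'
    | two hef he _ hf _ ihy ihx => exact .two hef he ihy hf ihx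
    | three hef heg hfg he _ hf _ hg _ ihy ihz ihx => exact .three hef heg hfg he ihy hf ihz hg ihx
    | four hef heg heh hfg hfh hgh he _ hf _ hg _ hh _ ihy ihz ihu ihx =>
      exact .four hef heg heh hfg hfh hgh he ihy hf ihz hg ihu hh ihx
  have hd : TH362.TF.N1 src dst Finset.univ →
      TH362.TF.NZ src dst Finset.univ ∨ TH362.TF.PQ src dst Finset.univ := fun hn =>
    W5h7.Dom.dom_three src dst hn c (fun e₀ v w hvw => by
      obtain ⟨i, hi | ⟨e, x, y, hxy, hx, hy⟩⟩ := hc e₀ v w hvw
      · exact ⟨i, Or.inl (hT _ _ hi)⟩
      · exact ⟨i, Or.inr ⟨e, x, y, hxy, hT _ _ hx, hT _ _ hy⟩⟩)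
  have main : IsTwoBlock S → ∃ t : Fin 15 → Fin n → ZMod 2,
        Set.range t ⊆ S ∧ Function.Injective t ∧
        ∀ x : Fin 15 → ZMod 2, ∑ k, x k • t k = 0 ↔ x ∈ petersenCuts := fun h =>
    R890.FF.blk1 (hv : TH676.Blk.RepCo src dst vec) hr hd h.1 h.2
  refine ⟨main, ?_⟩
  rintro ⟨h2, htan⟩
  obtain ⟨t, ht, _, hx⟩ := main h2
  exact R890.FF.blk2 htan ht hx

end Pool.Agent.Results.MP_aa6b05_co.DominationThree
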