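import Pool.Agent.W5h14.Spr.Fin
import Pool.Agent.R890.FF.Blk

set_option autoImplicit false

/-!
# Cographic 2-blocks of graphs with few 3-edge cuts (MP_aa6b05_co)

Let `S` represent over GF(2) the cographic matroid `M*(G)` of a graph `G` in which there are no
thirteen pairwise disjoint sets of vertices each of which is left by exactly three edges.  This
holds if `G` has at most twelve edge cuts with three edges (so that `M*(G)` has at most twelve
3-element circuits), and if `G` becomes 4-edge-connected by adding at most six edges.  If `S` is a
2-block then `S` has a RESTRICTION `M*(P₁₀)` (no contraction is needed), and if it is tangential it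
is `M*(P₁₀)`.  The rank, the order and the number of vertices of odd degree are unbounded.

The graph theorem is `W5h14.Spr.few_three`: such a bridgeless multigraph has a nowhere-zero 4-flow
or a component which can be contracted to the Petersen graph.  Proof.  Let `H` be a minimal quotient
without nowhere-zero 4-flow.  A set `U` of at least three vertices of `H` contains at most
`2 |U| - 4` edges: otherwise take a smallest such `U` and `2 |U| - 3` edges in `U`; by the matroid
union theorem they can be decomposed into a spanning tree of `U` and a spanning forest with two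
components, one of which is a prescribed vertex, or the two ends of an edge; a choice of the
component according to the parities shows that every flow outside of `U` can be extended to `U`.
As `H` has at least 18 vertices of odd degree (starting library), it has at least 13 vertices of
degree three.
-/

namespace Pool.Agent.Results.MP_aa6b05_co.FewThreeEdgeCuts

/-- The incidence vector of the vertex `v` over GF(2): the coordinate of an edge is the number of
its ends which are `v`, modulo 2 (so loops give 0). -/
def star {V E : Type} [DecidableEq V] (src dst : E → V) (v : V) : E → ZMod 2 :=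
  fun e => (if src e = v then 1 else 0) + (if dst e = v then 1 else 0)

/-- The vectors `vec e` represent the cographic matroid of the graph: the linear relations between
them are exactly the elements of the cut space, which is spanned by the incidence vectors. -/
def RepresentsCographic {V E : Type} [DecidableEq V] [Fintype E] (src dst : E → V) {n : ℕ}
    (vec : E → Fin n → ZMod 2) : Prop :=
  ∀ x : E → ZMod 2, ∑ e, x e • vec e = 0 ↔
    x ∈ Submodule.span (ZMod 2) (Set.range (star src dst))

/-- The edges leaving the set `X` of vertices: exactly one end is in `X`. -/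
def leaving {V E : Type} (src dst : E → V) (X : Set V) : Set E :=
  {e | ¬ (src e ∈ X ↔ dst e ∈ X)}

/-- The simple matroid represented by the set `S` of vectors over GF(2) is a 2-block: `S` has no
zero vector and no linear map to the plane over GF(2) is nonzero on all of `S`. -/
def IsTwoBlock {n : ℕ} (S : Set (Fin n → ZMod 2)) : Prop :=
  (0 : Fin n → ZMod 2) ∉ S ∧
    ¬ ∃ L : (Fin n → ZMod 2) →ₗ[ZMod 2] (Fin 2 → ZMod 2), ∀ s ∈ S, L s ≠ 0

/-- `S` represents a tangential 2-block: it is a 2-block, and no proper minor without loops
(contract `C`, keep `T`) is a 2-block. This is the hypothesis of the frozen statement S10691. -/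
def IsTangential {n : ℕ} (S : Set (Fin n → ZMod 2)) : Prop :=
  IsTwoBlock S ∧
    ∀ C T : Set (Fin n → ZMod 2), C ⊆ S → T ⊆ S → T ≠ S →
      (∀ t ∈ T, t ∉ Submodule.span (ZMod 2) C) →
      ∃ L : (Fin n → ZMod 2) →ₗ[ZMod 2] (Fin 2 → ZMod 2),
        (∀ c ∈ C, L c = 0) ∧ ∀ t ∈ T, L t ≠ 0

/-- The cut space of the Petersen graph: vertices `0, ..., 9`, edges `0, ..., 14`. -/
def petersenCuts : Submodule (ZMod 2) (Fin 15 → ZMod 2) :=
  Submodule.span (ZMod 2) (Set.range (fun v : Fin 10 => fun k : Fin 15 =>
    if (![0,1,2,3,4,5,6,7,8,9,0,1,2,3,4] : Fin 15 → Fin 10) k = v ∨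
       (![1,2,3,4,0,7,8,9,5,6,5,6,7,8,9] : Fin 15 → Fin 10) k = v
    then (1 : ZMod 2) else 0))

/-- Let `S` be a set of vectors over GF(2) which represents the cographic matroid of a graph
(parallel elements are represented by the same vector).  Suppose that there are no thirteen pairwise
disjoint sets of vertices of the graph each of which is left by exactly three edges.  If `S` is a
2-block then `S` contains 15 different vectors which represent the cographic matroid of the Petersen
graph; if `S` is a tangential 2-block then `S` is the cographic matroid of the Petersen graph, in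
the form of the frozen statement S10691. -/
theorem result :
    ∀ (n : ℕ) (S : Set (Fin n → ZMod 2)) (V E : Type) [Fintype V] [DecidableEq V] [Fintype E]
      [DecidableEq E] (src dst : E → V) (vec : E → Fin n → ZMod 2),
      RepresentsCographic src dst vec → Set.range vec = S →
      (¬ ∃ X : Fin 13 → Set V, (∀ i j, i ≠ j → Disjoint (X i) (X j)) ∧
        ∀ i, (leaving src dst (X i)).ncard = 3) →
      (IsTwoBlock S → ∃ t : Fin 15 → Fin n → ZMod 2,
        Set.range t ⊆ S ∧ Function.Injective t ∧
        ∀ x : Fin 15 → ZMod 2, ∑ k, x k • t k = 0 ↔ x ∈ petersenCuts) ∧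
      (IsTangential S → ∃ ψ : (Fin 15 → ZMod 2) →ₗ[ZMod 2] (Fin n → ZMod 2),
        LinearMap.ker ψ = petersenCuts ∧
        ⇑ψ '' Set.range (fun k : Fin 15 => (Pi.single k (1 : ZMod 2) : Fin 15 → ZMod 2)) = S) := by
  classical
  intro n S V E _ _ _ _ src dst vec hv hr hm
  have hd : TH362.TF.N1 src dst Finset.univ →
      TH362.TF.NZ src dst Finset.univ ∨ TH362.TF.PQ src dst Finset.univ := fun hn => by
    refine W5h14.Spr.few_three src dst Finset.univ hn ?_
    rintro ⟨X, hX, hc⟩
    refine hm ⟨X, hX, fun i => ?_⟩
    rw [← hc i]
    congr 1
    ext e
    simp only [leaving, Set.mem_ofPred_eq, Finset.mem_univ, true_and]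
  have main : IsTwoBlock S → ∃ t : Fin 15 → Fin n → ZMod 2,
        Set.range t ⊆ S ∧ Function.Injective t ∧
        ∀ x : Fin 15 → ZMod 2, ∑ k, x k • t k = 0 ↔ x ∈ petersenCuts := fun h =>
    R890.FF.blk1 (hv : TH676.Blk.RepCo src dst vec) hr hd h.1 h.2
  refine ⟨main, ?_⟩
  rintro ⟨h2, htan⟩
  obtain ⟨t, ht, _, hx⟩ := main h2
  exact R890.FF.blk2 htan ht hx

end Pool.Agent.Results.MP_aa6b05_co.FewThreeEdgeCuts
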