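import Pool.Agent.W5h8.M9D
import Pool.Agent.R890.FF.Blk

set_option autoImplicit false

/-!
# Cographic 2-blocks of graphs with matching number at most eight (MP_aa6b05_co)

Let `S` represent over GF(2) the cographic matroid `M*(G)` of a graph `G` which does not contain
nine pairwise disjoint edges each of which is on no circuit with at most four edges; for example, a
graph with matching number at most eight.  If `S` is a 2-block then `S` has a RESTRICTION
`M*(P₁₀)` (no contraction is needed), and if it is tangential it is `M*(P₁₀)`.  The rank, the order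
and the number of vertices of odd degree are unbounded.

The graph theoretic input is the theorem `W5h8.M9.match_nine_short` of helper8 (handed in for
MP_e6539c_co, NineDisjointEdges): every bridgeless multigraph of this kind has a nowhere-zero 4-flow
or a component which can be contracted to the Petersen graph.  The translation to blocks is the one
of the starting library (`R890/FF/Blk`, `TH676/Blk`, `Y642/RN`).
-/

namespace Pool.Agent.Results.MP_aa6b05_co.MatchingNumberEight

/-- The incidence vector of the vertex `v` over GF(2): the coordinate of an edge is the number of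
its ends which are `v`, modulo 2 (so loops give 0). -/
def star {V E : Type} [DecidableEq V] (src dst : E → V) (v : V) : E → ZMod 2 :=
  fun e => (if src e = v then 1 else 0) + (if dst e = v then 1 else 0)

/-- The vectors `vec e` represent the cographic matroid of the graph: the linear relations between
them are exactly the elements of the cut space, which is spanned by the incidence vectors. -/
def RepresentsCographic {V E : Type} [DecidableEq V] [Fintype E] (src dst : E → V) {n : ℕ}
    (vec : E → Fin n → ZMod 2) : Prop :=
  ∀ x : E → ZMod 2, ∑ e, x e • vec e = 0 ↔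
    x ∈ Submodule.span (ZMod 2) (Set.range (star src dst))

/-- `C` is a cycle (an edge-disjoint union of circuits): every vertex has even degree in `(V, C)`
(a loop counts twice). -/
def IsCycle {V E : Type} [DecidableEq V] (src dst : E → V) (C : Finset E) : Prop :=
  ∀ v : V, Even (∑ e ∈ C, ((if src e = v then 1 else 0) + (if dst e = v then 1 else 0)))

/-- The edge `e` is in no cycle with at most four edges; equivalently it is on no circuit with at
most four edges (in particular it is not a loop). -/
def Long {V E : Type} [DecidableEq V] (src dst : E → V) (e : E) : Prop :=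
  ∀ C : Finset E, IsCycle src dst C → e ∈ C → 5 ≤ C.card

/-- The simple matroid represented by the set `S` of vectors over GF(2) is a 2-block: `S` has no
zero vector and no linear map to the plane over GF(2) is nonzero on all of `S`. -/
def IsTwoBlock {n : ℕ} (S : Set (Fin n → ZMod 2)) : Prop :=
  (0 : Fin n → ZMod 2) ∉ S ∧
    ¬ ∃ L : (Fin n → ZMod 2) →ₗ[ZMod 2] (Fin 2 → ZMod 2), ∀ s ∈ S, L s ≠ 0

/-- `S` represents a tangential 2-block: it is a 2-block, and no proper minor without loops
(contract `C`, keep `T`) is a 2-block. This is the hypothesis of the frozen statement S10691. -/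
def IsTangential {n : ℕ} (S : Set (Fin n → ZMod 2)) : Prop :=
  IsTwoBlock S ∧
    ∀ C T : Set (Fin n → ZMod 2), C ⊆ S → T ⊆ S → T ≠ S →
      (∀ t ∈ T, t ∉ Submodule.span (ZMod 2) C) →
      ∃ L : (Fin n → ZMod 2) →ₗ[ZMod 2] (Fin 2 → ZMod 2),
        (∀ c ∈ C, L c = 0) ∧ ∀ t ∈ T, L t ≠ 0

/-- The cut space of the Petersen graph: vertices `0, ..., 9`, edges `0, ..., 14`. -/
def petersenCuts : Submodule (ZMod 2) (Fin 15 → ZMod 2) :=
  Submodule.span (ZMod 2) (Set.range (fun v : Fin 10 => fun k : Fin 15 =>
    if (![0,1,2,3,4,5,6,7,8,9,0,1,2,3,4] : Fin 15 → Fin 10) k = v ∨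
       (![1,2,3,4,0,7,8,9,5,6,5,6,7,8,9] : Fin 15 → Fin 10) k = v
    then (1 : ZMod 2) else 0))

/-- Let `S` be a set of vectors over GF(2) which represents the cographic matroid of a graph
(parallel elements are represented by the same vector).  Suppose that there are no nine pairwise
disjoint edges of the graph each of which is on no circuit with at most four edges (for instance
that the graph has no matching with nine edges).  If `S` is a 2-block then `S` contains 15 different
vectors which represent the cographic matroid of the Petersen graph; if `S` is a tangential 2-block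
then `S` is the cographic matroid of the Petersen graph, in the form of the frozen statement
S10691. -/
theorem result :
    ∀ (n : ℕ) (S : Set (Fin n → ZMod 2)) (V E : Type) [Fintype V] [DecidableEq V] [Fintype E]
      [DecidableEq E] (src dst : E → V) (vec : E → Fin n → ZMod 2),
      RepresentsCographic src dst vec → Set.range vec = S →
      (¬ ∃ f : Fin 9 → E, (∀ i, Long src dst (f i)) ∧
        ∀ i j, i ≠ j → Disjoint ({src (f i), dst (f i)} : Set V) {src (f j), dst (f j)}) →
      (IsTwoBlock S → ∃ t : Fin 15 → Fin n → ZMod 2,
        Set.range t ⊆ S ∧ Function.Injective t ∧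
        ∀ x : Fin 15 → ZMod 2, ∑ k, x k • t k = 0 ↔ x ∈ petersenCuts) ∧
      (IsTangential S → ∃ ψ : (Fin 15 → ZMod 2) →ₗ[ZMod 2] (Fin n → ZMod 2),
        LinearMap.ker ψ = petersenCuts ∧
        ⇑ψ '' Set.range (fun k : Fin 15 => (Pi.single k (1 : ZMod 2) : Fin 15 → ZMod 2)) = S) := by
  classical
  intro n S V E _ _ _ _ src dst vec hv hr hm
  have hd : TH362.TF.N1 src dst Finset.univ →
      TH362.TF.NZ src dst Finset.univ ∨ TH362.TF.PQ src dst Finset.univ := fun hn => by
    refine W5h8.M9.match_nine_short src dst Finset.univ hn ?_
    rintro ⟨f, hf, hdis⟩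
    exact hm ⟨f, fun i C hC hi => (hf i).2 C (Finset.subset_univ _) hC hi, hdis⟩
  have main : IsTwoBlock S → ∃ t : Fin 15 → Fin n → ZMod 2,
        Set.range t ⊆ S ∧ Function.Injective t ∧
        ∀ x : Fin 15 → ZMod 2, ∑ k, x k • t k = 0 ↔ x ∈ petersenCuts := fun h =>
    R890.FF.blk1 (hv : TH676.Blk.RepCo src dst vec) hr hd h.1 h.2
  refine ⟨main, ?_⟩
  rintro ⟨h2, htan⟩
  obtain ⟨t, ht, _, hx⟩ := main h2
  exact R890.FF.blk2 htan ht hx

end Pool.Agent.Results.MP_aa6b05_co.MatchingNumberEight
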